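import Mathlib
import Pool.Agent.Results.MP_f5b23d_al.FrattiniGenus

/-!
# Frattini subgroups of products
-/

set_option autoImplicit false

namespace Pool.Agent.Y134.Fr

open Pool.Agent.Helper189 Pool.Agent.Results.MP_f5b23d_al.FrattiniGenus

/-! ### The Frattini subgroup of a product -/

lemma coatomic {G : Type*} [Group G] (h : Group.FG G) : IsCoatomic (Subgroup G) := by
  apply CompleteLattice.coatomic_of_top_compact
  rw [CompleteLattice.isCompactElement_iff_le_of_directed_sSup_le]
  intro s hne hdir hle
  obtain ⟨S, hS⟩ := h.out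
  have h1 : (S : Set G) ⊆ ⋃ M ∈ s, ((M : Subgroup G) : Set G) := by
    intro g _
    have h2 : g ∈ sSup s := hle (Subgroup.mem_top g)
    rw [Subgroup.mem_sSup_of_directedOn hne hdir] at h2
    obtain ⟨M, hM, hg⟩ := h2
    exact Set.mem_biUnion hM hg
  obtain ⟨M, hM, hSM⟩ := DirectedOn.exists_mem_subset_of_finset_subset_biUnion
    (f := fun M : Subgroup G => (M : Set G)) hne (fun a ha b hb => by
      obtain ⟨c, hc, h2, h3⟩ := hdir a ha b hb
      exact ⟨c, hc, h2, h3⟩) h1
  refine ⟨M, hM, ?_⟩
  rw [← hS, Subgroup.closure_le]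
  exact hSM

/-- The image of the Frattini subgroup of a finitely generated group lies in the Frattini subgroup
if it is normal. -/
lemma map_le {A P : Type*} [Group A] [Group P] (hA : Group.FG A) (ι : A →* P)
    (hN : ((frattini A).map ι).Normal) : (frattini A).map ι ≤ frattini P := by
  have hco := coatomic hA
  change (frattini A).map ι ≤ Order.radical (Subgroup P)
  simp only [Order.radical, le_iInf_iff]
  intro M hM
  by_contra hM'
  have h1 : M ⊔ (frattini A).map ι = ⊤ := by
    apply hM.2
    refine lt_of_le_of_ne le_sup_left fun h => hM' ?_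
    rw [h]
    exact le_sup_right
  have h2 : M.comap ι ⊔ frattini A = ⊤ := by
    rw [eq_top_iff]
    intro x _
    have h3 : ι x ∈ M ⊔ (frattini A).map ι := by rw [h1]; trivial
    rw [Subgroup.mem_sup_of_normal_right] at h3
    obtain ⟨m, hm, n, hn, h4⟩ := h3
    obtain ⟨y, hy, rfl⟩ := hn
    have h5 : m = ι (x * y⁻¹) := by
      rw [map_mul, map_inv, ← h4, mul_inv_cancel_right]
    have h6 : x = (x * y⁻¹) * y := by group
    rw [h6]
    exact Subgroup.mul_mem_sup (by rw [Subgroup.mem_comap, ← h5]; exact hm) hy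
  have h3 := frattini_nongenerating h2
  apply hM'
  rw [Subgroup.map_le_iff_le_comap, h3]
  exact le_top

/-- The Frattini subgroup of a product of two finitely generated groups. -/
theorem frattini_prod {A B : Type*} [Group A] [Group B] (hA : Group.FG A) (hB : Group.FG B) :
    frattini (A × B) = (frattini A).prod (frattini B) := by
  apply le_antisymm
  · intro x hx
    exact ⟨frattini_le_comap_frattini_of_surjective (φ := MonoidHom.fst A B)
      Prod.fst_surjective hx, frattini_le_comap_frattini_of_surjective (φ := MonoidHom.snd A B)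
      Prod.snd_surjective hx⟩
  · rintro ⟨a, b⟩ ⟨ha, hb⟩
    have h1 : ((a, 1) : A × B) ∈ frattini (A × B) := by
      refine map_le hA (MonoidHom.inl A B) ?_ ⟨a, ha, rfl⟩
      constructor
      rintro _ ⟨n, hn, rfl⟩ ⟨g, c⟩
      refine ⟨g * n * g⁻¹, (inferInstance : (frattini A).Normal).conj_mem n hn g, ?_⟩
      ext <;> simp
    have h2 : ((1, b) : A × B) ∈ frattini (A × B) := by
      refine map_le hB (MonoidHom.inr A B) ?_ ⟨b, hb, rfl⟩
      constructor
      rintro _ ⟨n, hn, rfl⟩ ⟨g, c⟩
      refine ⟨c * n * c⁻¹, (inferInstance : (frattini B).Normal).conj_mem n hn c, ?_⟩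
      ext <;> simp
    have h3 := mul_mem h1 h2
    simpa using h3

/-! ### The lower central sequence of a product -/

lemma Same.refl (A : Type) [Group A] : SameLowerCentralSequence A A :=
  fun _ => ⟨MulEquiv.refl _⟩

lemma Same.symm {A B : Type} [Group A] [Group B] (h : SameLowerCentralSequence A B) :
    SameLowerCentralSequence B A := fun n => ⟨(h n).some.symm⟩

theorem Same.prod {A A' B B' : Type} [Group A] [Group A'] [Group B] [Group B']
    (h : SameLowerCentralSequence A A') (h' : SameLowerCentralSequence B B') :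
    SameLowerCentralSequence (A × B) (A' × B') := by
  intro n
  have key : ∀ (X Y : Type) [Group X] [Group Y], Nonempty
      ((X × Y) ⧸ (⊤ : Subgroup (X × Y)).lowerCentralSeries n ≃*
        (X ⧸ (⊤ : Subgroup X).lowerCentralSeries n) ×
          (Y ⧸ (⊤ : Subgroup Y).lowerCentralSeries n)) := by
    intro X Y _ _
    let f : X × Y →* (X ⧸ (⊤ : Subgroup X).lowerCentralSeries n) ×
        (Y ⧸ (⊤ : Subgroup Y).lowerCentralSeries n) :=
      (QuotientGroup.mk' _).prodMap (QuotientGroup.mk' _)
    have hf : Function.Surjective f :=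
      Function.Surjective.prodMap (QuotientGroup.mk'_surjective _) (QuotientGroup.mk'_surjective _)
    have hk : (⊤ : Subgroup (X × Y)).lowerCentralSeries n = f.ker := by
      rw [Subgroup.top_lowerCentralSeries_prod]
      ext ⟨x, y⟩
      rw [MonoidHom.mem_ker, Subgroup.mem_prod]
      change _ ↔ ((QuotientGroup.mk x, QuotientGroup.mk y) : _ × _) = 1
      rw [Prod.mk_eq_one, QuotientGroup.eq_one_iff, QuotientGroup.eq_one_iff]
    exact ⟨(QuotientGroup.quotientMulEquivOfEq hk).trans
      (QuotientGroup.quotientKerEquivOfSurjective f hf)⟩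
  obtain ⟨e1⟩ := key A B
  obtain ⟨e2⟩ := key A' B'
  obtain ⟨e3⟩ := h n
  obtain ⟨e4⟩ := h' n
  exact ⟨(e1.trans (e3.prodCongr e4)).trans e2.symm⟩

theorem Same.pi {ι : Type} [Finite ι] {A B : ι → Type} [∀ i, Group (A i)] [∀ i, Group (B i)]
    (h : ∀ i, SameLowerCentralSequence (A i) (B i)) :
    SameLowerCentralSequence (∀ i, A i) (∀ i, B i) := by
  intro n
  have key : ∀ (X : ι → Type) [∀ i, Group (X i)], Nonempty
      ((∀ i, X i) ⧸ (⊤ : Subgroup (∀ i, X i)).lowerCentralSeries n ≃*
        ∀ i, X i ⧸ (⊤ : Subgroup (X i)).lowerCentralSeries n) := by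
    intro X _
    let f : (∀ i, X i) →* ∀ i, X i ⧸ (⊤ : Subgroup (X i)).lowerCentralSeries n :=
      { toFun := fun x i => QuotientGroup.mk (x i)
        map_one' := rfl
        map_mul' := fun _ _ => rfl }
    have hf : Function.Surjective f := by
      intro y
      choose x hx using fun i => QuotientGroup.mk_surjective (y i)
      exact ⟨x, funext hx⟩
    have hk : (⊤ : Subgroup (∀ i, X i)).lowerCentralSeries n = f.ker := by
      rw [Subgroup.top_lowerCentralSeries_pi_of_finite]
      ext x
      rw [MonoidHom.mem_ker, Subgroup.mem_pi]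
      change _ ↔ (fun i => (QuotientGroup.mk (x i) : X i ⧸ (⊤ : Subgroup (X i)).lowerCentralSeries n)) = 1
      rw [funext_iff]
      refine ⟨fun h i => (QuotientGroup.eq_one_iff _).2 (h i (Set.mem_univ i)),
        fun h i _ => (QuotientGroup.eq_one_iff _).1 (h i)⟩
    exact ⟨(QuotientGroup.quotientMulEquivOfEq hk).trans
      (QuotientGroup.quotientKerEquivOfSurjective f hf)⟩
  obtain ⟨e1⟩ := key A
  obtain ⟨e2⟩ := key B
  have e3 : ∀ i, _ := fun i => (h i n).some
  exact ⟨(e1.trans (MulEquiv.piCongrRight e3)).trans e2.symm⟩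

/-! ### Residual properties -/

lemma rtfn_of_surj {A : Type} [Group A] {g : A} {B : Type} [Group B] (p : A →* B)
    (hp : Function.Surjective p) (hB : ResiduallyTorsionFreeNilpotent B) (hg : p g ≠ 1) :
    ∃ (K : Type) (_ : Group K) (f : A →* K), Function.Surjective f ∧
      Group.IsNilpotent K ∧ (∀ (x : K) (n : ℕ), n ≠ 0 → x ^ n = 1 → x = 1) ∧ f g ≠ 1 := by
  obtain ⟨K, _, f, hf, h1, h2, h3⟩ := hB _ hg
  exact ⟨K, inferInstance, f.comp p, hf.comp hp, h1, h2, h3⟩

lemma rtfn_prod {A B : Type} [Group A] [Group B] (hA : ResiduallyTorsionFreeNilpotent A)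
    (hB : ResiduallyTorsionFreeNilpotent B) : ResiduallyTorsionFreeNilpotent (A × B) := by
  rintro ⟨a, b⟩ hg
  by_cases ha : a = 1
  · exact rtfn_of_surj (MonoidHom.snd A B) Prod.snd_surjective hB (fun hb => hg (by
      rw [ha, show b = 1 from hb]; rfl))
  · exact rtfn_of_surj (MonoidHom.fst A B) Prod.fst_surjective hA ha

lemma rtfn_pi {ι : Type} {A : ι → Type} [∀ i, Group (A i)]
    (h : ∀ i, ResiduallyTorsionFreeNilpotent (A i)) :
    ResiduallyTorsionFreeNilpotent (∀ i, A i) := by
  intro g hg
  obtain ⟨i, hi⟩ := Function.ne_iff.1 hg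
  exact rtfn_of_surj (Pi.evalMonoidHom A i) (Function.surjective_eval i) (h i) hi

/-! ### The building blocks -/

open FratMain FratFinal Genus
open scoped commutatorElement

/-- The generator of the Frattini subgroup of `H`. -/
def z : H := (((s : F) : F ⧸ W), 1)

lemma z_center : z ∈ Subgroup.center H := by
  rw [Subgroup.mem_center_iff]
  rintro ⟨d, f⟩
  obtain ⟨g, rfl⟩ := QuotientGroup.mk_surjective d
  ext
  · change (g : F ⧸ W) * (s : F ⧸ W) = (s : F ⧸ W) * (g : F ⧸ W)
    have h1 : ⁅s, g⁆ ∈ W := Subgroup.commutator_mem_commutator s_mem_S trivial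
    have h2 : ((⁅s, g⁆ : F) : F ⧸ W) = 1 := (QuotientGroup.eq_one_iff _).mpr h1
    have h3 : ⁅((s : F) : F ⧸ W), ((g : F) : F ⧸ W)⁆ = 1 := h2
    exact (commutatorElement_eq_one_iff_mul_comm.mp h3).symm
  · change f * 1 = 1 * f
    simp

lemma z_comm : z ∈ commutator H := by
  have e : z = ⁅((((x 0 1 : F)) : F ⧸ W), (1 : F)), ((((x 1 6 : F)) : F ⧸ W), (1 : F))⁆ := by
    ext
    · rfl
    · change (1 : F) = ⁅(1 : F), (1 : F)⁆
      simp
  rw [e, commutator_def]
  exact Subgroup.commutator_mem_commutator trivial trivial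

lemma z_zpow {k : ℤ} (h : z ^ k = 1) : k = 0 := by
  have h2 : ((s : F) : F ⧸ W) ^ k = 1 := congrArg Prod.fst h
  exact s_zpow_mem_W ((QuotientGroup.eq_one_iff (s ^ k)).mp h2)

theorem frattini_H_eq : frattini H = Subgroup.zpowers z := by
  apply le_antisymm
  · rintro ⟨d, f⟩ hg
    obtain ⟨a, rfl⟩ := QuotientGroup.mk_surjective d
    have hf : f = 1 := Frat.map_frattini_eq_one (MonoidHom.snd (F ⧸ W) F) hg
    subst hf
    have haS : a ∈ S := by
      by_contra hcon
      obtain ⟨φ, hφs, hφa⟩ := exists_hom hcon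
      let φ' : F ⧸ W →* F := QuotientGroup.lift W φ (fun w hw => W_le_ker_of_eq_one φ hφs hw)
      have h3 := Frat.map_frattini_eq_one (φ'.comp (MonoidHom.fst (F ⧸ W) F)) hg
      exact hφa h3
    obtain ⟨k, hk⟩ := mem_S haS
    refine ⟨k, ?_⟩
    change z ^ k = _
    ext
    · exact hk
    · change (1 : F) ^ k = 1
      exact one_zpow k
  · rw [Subgroup.zpowers_le]
    exact mem_frattini z_center z_comm

/-- The two building blocks. -/
def C : Bool → Type := fun b => match b with
  | true => H
  | false => G

instance : ∀ b, Group (C b) := fun b => match b with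
  | true => (inferInstance : Group H)
  | false => (inferInstance : Group G)

/-- The generator of the Frattini subgroup. -/
def zz : ∀ b, C b := fun b => match b with
  | true => z
  | false => (1 : G)

lemma fg_C : ∀ b, Group.FG (C b) := fun b => match b with
  | true => fg_H
  | false => fg_G

lemma rtfn_C : ∀ b, ResiduallyTorsionFreeNilpotent (C b) := fun b => match b with
  | true => rtfn_of_sep rtfn_H
  | false => rtfn_of_sep rtfn_G

lemma same_C : ∀ b b', SameLowerCentralSequence (C b) (C b') := fun b b' => match b, b' with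
  | true, true => Same.refl H
  | false, false => Same.refl G
  | false, true => genus
  | true, false => Same.symm genus

lemma frattini_C : ∀ b, frattini (C b) = Subgroup.zpowers (zz b) := fun b => match b with
  | true => frattini_H_eq
  | false => by
    change frattini G = Subgroup.zpowers (1 : G)
    rw [frattini_G, Subgroup.zpowers_one_eq_bot]

lemma zz_center : ∀ b, zz b ∈ Subgroup.center (C b) := fun b => match b with
  | true => z_center
  | false => Subgroup.one_mem _

lemma zz_comm : ∀ b, zz b ∈ commutator (C b) := fun b => match b with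
  | true => z_comm
  | false => Subgroup.one_mem _

lemma zz_zpow : ∀ b, b = true → ∀ k : ℤ, zz b ^ k = 1 → k = 0 := fun b => match b with
  | true => fun _ _ h => z_zpow h
  | false => fun h => absurd h (by simp)

lemma zz_false : ∀ b, b = false → zz b = 1 := fun b => match b with
  | false => fun _ => rfl
  | true => fun h => absurd h (by simp)

/-- The product of `n` copies of `H` and `N - n` copies of `G`. -/
abbrev Q (N n : ℕ) : Type := ∀ i : Fin N, C (decide ((i : ℕ) < n))

lemma fg_Q (N n : ℕ) : Group.FG (Q N n) := by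
  have := fg_C
  infer_instance

lemma rtfn_Q (N n : ℕ) : ResiduallyTorsionFreeNilpotent (Q N n) := rtfn_pi fun _ => rtfn_C _

lemma same_Q (N m n : ℕ) : SameLowerCentralSequence (Q N m) (Q N n) := Same.pi fun _ => same_C _ _

/-- The elements of the Frattini subgroup. -/
def psi (N n : ℕ) : Multiplicative (Fin n → ℤ) →* Q N n where
  toFun a i := zz _ ^ (if h : (i : ℕ) < n then a.toAdd ⟨i, h⟩ else 0)
  map_one' := by
    funext i
    have : (if h : (i : ℕ) < n then (1 : Multiplicative (Fin n → ℤ)).toAdd ⟨i, h⟩ else 0) = 0 := by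
      split_ifs <;> rfl
    rw [this, zpow_zero]
    rfl
  map_mul' a b := by
    funext i
    rw [Pi.mul_apply]
    beta_reduce
    rw [← zpow_add]
    congr 1
    split_ifs with h
    · rfl
    · rfl

lemma psi_apply (N n : ℕ) (a : Multiplicative (Fin n → ℤ)) (i : Fin N) : psi N n a i =
    zz (decide ((i : ℕ) < n)) ^ (if h : (i : ℕ) < n then a.toAdd ⟨i, h⟩ else 0 : ℤ) := rfl

lemma psi_injective {N n : ℕ} (hn : n ≤ N) : Function.Injective (psi N n) := by
  rw [injective_iff_map_eq_one]
  intro a ha
  apply Multiplicative.toAdd.injective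
  funext j
  have h1 := congrFun ha ⟨j, lt_of_lt_of_le j.2 hn⟩
  have h2 := zz_zpow _ (by simp) _ h1
  simpa using h2

theorem frattini_Q (N n : ℕ) : frattini (Q N n) = (psi N n).range := by
  apply le_antisymm
  · intro x hx
    have h1 : ∀ i, ∃ k : ℤ, zz _ ^ k = x i := by
      intro i
      have h2 : x i ∈ frattini (C (decide ((i : ℕ) < n))) :=
        frattini_le_comap_frattini_of_surjective
          (φ := Pi.evalMonoidHom (fun i : Fin N => C (decide ((i : ℕ) < n))) i)
          (Function.surjective_eval i) hx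
      rw [frattini_C] at h2
      exact h2
    choose k hk using h1
    refine ⟨Multiplicative.ofAdd fun j => if h : (j : ℕ) < N then k ⟨j, h⟩ else 0, ?_⟩
    funext i
    rw [← hk i, psi_apply]
    by_cases h : (i : ℕ) < n
    · congr 1
      simp [h]
    · rw [zz_false _ (by simpa using h), one_zpow, one_zpow]
  · rintro _ ⟨a, rfl⟩
    apply mem_frattini
    · rw [Subgroup.mem_center_iff]
      intro g
      funext i
      exact Subgroup.mem_center_iff.1 (Subgroup.zpow_mem _ (zz_center _) _) (g i)
    · have h1 : commutator (Q N n) = Subgroup.pi Set.univ fun i => commutator _ := by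
        have h2 := Subgroup.commutator_pi_pi_of_finite
          (fun i : Fin N => (⊤ : Subgroup (C (decide ((i : ℕ) < n))))) (fun i => ⊤)
        rw [Subgroup.pi_top] at h2
        exact h2
      rw [h1]
      intro i _
      exact Subgroup.zpow_mem _ (zz_comm _) _

/-- The Frattini subgroup of the product with a finitely generated group. -/
theorem frattini_KQ {K : Type} [Group K] (hK : Group.FG K) {N n : ℕ} (hn : n ≤ N) :
    Nonempty (frattini (K × Q N n) ≃* frattini K × Multiplicative (Fin n → ℤ)) := by
  rw [frattini_prod hK (fg_Q N n)]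
  exact ⟨(Subgroup.prodEquiv _ _).trans ((MulEquiv.refl _).prodCongr
    ((MulEquiv.subgroupCongr (frattini_Q N n)).trans
      (MonoidHom.ofInjective (psi_injective hn)).symm))⟩

end Pool.Agent.Y134.Fr
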